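import Pool.Agent.TH183.QT.Closed

set_option autoImplicit false

/-!
# One interval of minimal valuations gives all large `t`, and `9 ≤ t ≤ 10` gives all `t ≥ 9`

For a general germ `ξ` let `M_d(t)` be the largest value `v_{ξ, t}(f)` of a nonzero form `f` of
degree `d`. We prove `M_d(ρ ^ 2 / σ) ≤ (ρ / σ) M_d(σ)` for all real `σ > 0` and integers `ρ ≥ σ`, in
each degree `d` separately. So `M_d(t) / √t` does not increase from `σ` to `ρ ^ 2 / σ`. Hence, for
the set `A` of the `t > 0` with `μ̂(t) ≤ κ √t`, which is closed: `A` contains `[9, ∞)` if it is dense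
in `[9, 10]` or in `[8.1, 9]`; if it is dense in one interval `[a, b]`, however small, then it
contains all `t ≥ b` with `√t ≥ 1 / (√b - √a)`; so it is nowhere dense or contains all large `t`.

The proof is by degeneration: let `G(x, Y, C)` be the expansion along a good germ `ξ₀` for `σ` of a
form with coefficients in `ℂ[C]`, and give `x, Y, C` the weights `1, σ, σ - ρ`. The part of `G` of
least weight lies over the monomials of weight at most `M_d(σ)`, and it is of the same kind after
the substitution `Y = Z + C x ^ ρ`; a polynomial whose exponents span an interval of length `k`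
vanishes to order at most `k` at `1`, and this gives a monomial `x ^ i Z ^ j` of small value.
-/

namespace Pool.Agent.Results.MP_dd8059_ag.CompactReduction

open Pool.Agent.TH183.QT

theorem result :
    (∀ (d ρ : ℕ) (σ B : ℝ), 0 < σ → σ ≤ ρ → DegLE d σ B →
      DegLE d ((ρ : ℝ) ^ 2 / σ) (ρ / σ * B)) ∧
    ∀ κ : ℝ,
      (∀ t : ℝ, 0 < t → t ∈ closure {s : ℝ | NearMinimal κ s} → NearMinimal κ t) ∧
      (Set.Icc 9 10 ⊆ closure {s : ℝ | NearMinimal κ s} → ∀ t : ℝ, 9 ≤ t → NearMinimal κ t) ∧
      (∀ a : ℝ, 0 < a → a ≤ 81 / 10 → Set.Icc a 9 ⊆ closure {s : ℝ | NearMinimal κ s} →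
        ∀ t : ℝ, a ≤ t → NearMinimal κ t) ∧
      (∀ a b : ℝ, 0 < a → a < b → Set.Icc a b ⊆ closure {s : ℝ | NearMinimal κ s} →
        ∀ t : ℝ, b ≤ t → 1 ≤ Real.sqrt t * (Real.sqrt b - Real.sqrt a) → NearMinimal κ t) ∧
      (IsNowhereDense {t : ℝ | 0 < t ∧ NearMinimal κ t} ∨
        ∃ T : ℝ, ∀ t : ℝ, T ≤ t → NearMinimal κ t) := by
  refine ⟨fun d ρ σ B hσ hρ h => degLE_transfer hσ hρ h, fun κ => ?_⟩
  have main : ∀ a b : ℝ, 0 < a → a < b → Set.Icc a b ⊆ closure {s : ℝ | NearMinimal κ s} →
      ∀ t : ℝ, b ≤ t → 1 ≤ Real.sqrt t * (Real.sqrt b - Real.sqrt a) → NearMinimal κ t := by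
    intro a b ha hab h t hb ht
    rw [nearMinimal_iff (by linarith)]
    exact fun d => of_interval ha hab (fun s h1 h2 => (nearMinimal_iff (by linarith)).1
      (nearMinimal_of_mem_closure (by linarith) (h ⟨h1, h2⟩)) d) t hb ht
  refine ⟨fun t ht h => nearMinimal_of_mem_closure ht h, fun h t ht => ?_,
    fun a ha0 ha h t ht => ?_, main, ?_⟩
  · rw [nearMinimal_iff (by linarith)]
    exact fun d => nine_ten (fun s h1 h2 => (nearMinimal_iff (by linarith)).1
      (nearMinimal_of_mem_closure (by linarith) (h ⟨h1, h2⟩)) d) t ht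
  · rcases le_or_gt t (81 / 10) with h1 | h1
    · exact nearMinimal_of_mem_closure (by linarith) (h ⟨ht, by linarith⟩)
    · rw [nearMinimal_iff (by linarith)]
      exact fun d => below_nine (fun s h2 h3 =>
        (nearMinimal_iff (by linarith)).1
          (nearMinimal_of_mem_closure (by linarith) (h ⟨ha.trans h2, h3⟩)) d) t h1.le
  · by_cases hnd : IsNowhereDense {t : ℝ | 0 < t ∧ NearMinimal κ t}
    · exact Or.inl hnd
    · right
      obtain ⟨x, hx⟩ : (interior (closure {t : ℝ | 0 < t ∧ NearMinimal κ t})).Nonempty :=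
        Set.nonempty_iff_ne_empty.2 hnd
      obtain ⟨ε, hε, hball⟩ := Metric.isOpen_iff.1 isOpen_interior x hx
      have h0 : closure {t : ℝ | 0 < t ∧ NearMinimal κ t} ⊆ Set.Ici 0 :=
        closure_minimal (fun t ht => ht.1.le) isClosed_Ici
      have hx0 : 0 < x := by
        have h1 : x - ε / 2 ∈ Metric.ball x ε := by
          rw [Metric.mem_ball, Real.dist_eq, abs_lt]
          constructor <;> linarith
        have h2 := h0 (interior_subset (hball h1))
        rw [Set.mem_Ici] at h2
        linarith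
      have h3 : Set.Icc x (x + ε / 2) ⊆ closure {s : ℝ | NearMinimal κ s} := by
        intro s hs
        refine closure_mono (fun t ht => ht.2) (interior_subset (hball ?_))
        rw [Metric.mem_ball, Real.dist_eq, abs_lt]
        constructor
        · linarith [hs.1]
        · linarith [hs.2]
      obtain ⟨δ, hδ⟩ : ∃ δ, δ = Real.sqrt (x + ε / 2) - Real.sqrt x := ⟨_, rfl⟩
      have hδ0 : 0 < δ := by
        rw [hδ, sub_pos]
        exact Real.sqrt_lt_sqrt hx0.le (by linarith)
      refine ⟨max (x + ε / 2) ((1 / δ) ^ 2), fun t ht => ?_⟩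
      refine main x (x + ε / 2) hx0 (by linarith) h3 t ((le_max_left _ _).trans ht) ?_
      rw [← hδ]
      have h4 : 1 / δ ≤ Real.sqrt t := by
        rw [← Real.sqrt_sq (by positivity : (0 : ℝ) ≤ 1 / δ)]
        exact Real.sqrt_le_sqrt ((le_max_right _ _).trans ht)
      rwa [div_le_iff₀ hδ0] at h4

end Pool.Agent.Results.MP_dd8059_ag.CompactReduction
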