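import Pool.Agent.TH183.QN.Generic
import Pool.Agent.TH183.QN.Two
import Pool.Agent.TH183.QT.Uniform

set_option autoImplicit false

/-!
# Minimal quasimonomial valuations in every square class

One very general germ `ξ` satisfies `v_{ξ, t}(f) ≤ √t deg f` for all nonzero forms `f` and all
`t = μ + ν ≥ 1`, where `(μ, ν)` is in the least set `Reach` of pairs that contains `(0, 1)` and is
closed under the moves below. This set contains `(0, D s ^ 2)` for every `D ≥ 1` and all `s ≥ s₀(D)`,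
and `(0, 2 s ^ 2)` for all `s ≥ 8`. So `μ̂(t) = √t` for these `t`: the first integers `t` that are not
squares, in every square class, and the first irrational values of `t`.

A pair `(μ, ν)` stands for the triangles with horizontal base and the sides `x = α + μ y` and
`x = β - ν y`, with twice the area greater than the self-intersection. `stepA`, `stepC` flatten such
a triangle along a primitive covector; `lim` is the limit of the staircase of mutations of the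
weighted plane `P(1, 1, M)`.
-/

namespace Pool.Agent.Results.MP_dd8059_ag.ExactSquareClasses

open Pool.Agent.TH183.QT Pool.Agent.TH183.QN Pool.Agent.TH181.NagM

/-- The pairs reached from `(0, 1)`. -/
inductive Reach : ℝ → ℝ → Prop
  | start : Reach 0 1
  | mirror {μ ν : ℝ} : Reach μ ν → Reach ν μ
  | shear {μ ν : ℝ} (k : ℤ) : Reach μ ν → Reach (μ + k) (ν - k)
  | stepA {μ ν : ℝ} (u v : ℤ) : Reach μ ν → IsCoprime u v → 0 ≤ u → 0 ≤ u * μ + v → u * ν ≤ v →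
      0 < μ + ν → Reach (u * (u * μ + v)) ((v - u * ν) * (u * μ + v) / (μ + ν))
  | stepC {μ ν : ℝ} (u v : ℤ) : Reach μ ν → IsCoprime u v → 0 ≤ u → 0 ≤ u * μ + v → v ≤ u * ν →
      Reach (u * (u * μ + v)) (u * (u * ν - v))
  | lim {M : ℕ} {ω : ℝ} : Reach 0 M → 1 ≤ M → 2 ≤ ω → ω ^ 2 + 1 = (M + 2) * ω →
      Reach (1 / M) ((ω ^ 2 - 1) / M)

theorem Reach.mv {μ ν : ℝ} (h : Reach μ ν) : Mv 0 1 μ ν := by
  induction h with
  | start => exact Mv.refl 0 1
  | mirror _ ih => exact ih.trans (Mv.mirror (Mv.refl _ _))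
  | shear k _ ih => exact ih.trans (Mv.shear k (Mv.refl _ _))
  | stepA u v _ hc hu h1 h2 hn ih => exact ih.trans (Mv.stepA u v hc hu h1 h2 hn (Mv.refl _ _))
  | stepC u v _ hc hu h1 h2 ih => exact ih.trans (Mv.stepC u v hc hu h1 h2 (Mv.refl _ _))
  | lim _ hM hω hω2 ih => exact ih.trans (Mv.lim hM hω hω2 (Mv.refl _ _))

theorem closed (a b : ℝ) : Closed fun μ ν => Reach μ ν → Reach a b where
  mirror h hr := h hr.mirror
  shear k h hr := h (hr.shear k)
  stepA u v hc hu h1 h2 hn h hr := h (hr.stepA u v hc hu h1 h2 hn)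
  stepC u v hc hu h1 h2 h hr := h (hr.stepC u v hc hu h1 h2)
  lim := by
    intro M hM ω hω hω2 h hr
    exact h (hr.lim hM hω hω2)

theorem Reach.of_mv {μ ν a b : ℝ} (h : Mv μ ν a b) (hr : Reach μ ν) : Reach a b :=
  h.closed (closed a b) (fun h => h) hr

theorem Reach.minimal {μ ν : ℝ} (h : Reach μ ν) (h1 : 1 ≤ μ + ν) : NearMinimal 1 (μ + ν) :=
  nearMinimal_of_Mv h1 (h.mv.trans (Mv.toRT (by linarith)))

/-- All reached numbers are algebraic. -/
theorem Reach.algebraic {μ ν : ℝ} (h : Reach μ ν) : IsAlgebraic ℚ μ ∧ IsAlgebraic ℚ ν := by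
  have hz : ∀ n : ℤ, IsAlgebraic ℚ (n : ℝ) := fun n => isAlgebraic_intCast n
  have hn : ∀ n : ℕ, IsAlgebraic ℚ (n : ℝ) := fun n => isAlgebraic_natCast n
  induction h with
  | start => exact ⟨isAlgebraic_zero, isAlgebraic_one⟩
  | mirror _ ih => exact ⟨ih.2, ih.1⟩
  | shear k _ ih => exact ⟨ih.1.add (hz k), ih.2.sub (hz k)⟩
  | stepA u v _ _ _ _ _ _ ih =>
    have e : IsAlgebraic ℚ ((u : ℝ) * _ + v) := ((hz u).mul ih.1).add (hz v)
    refine ⟨(hz u).mul e, ?_⟩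
    rw [div_eq_mul_inv]
    exact (((hz v).sub ((hz u).mul ih.2)).mul e).mul (ih.1.add ih.2).inv
  | stepC u v _ _ _ _ _ ih =>
    exact ⟨(hz u).mul (((hz u).mul ih.1).add (hz v)), (hz u).mul (((hz u).mul ih.2).sub (hz v))⟩
  | @lim M ω _ hM hω hω2 ih =>
    have hωa : IsAlgebraic ℚ ω := by
      refine ⟨Polynomial.X ^ 2 - Polynomial.C ((M : ℚ) + 2) * Polynomial.X + 1, ?_, ?_⟩
      · intro h0
        have := congrArg (Polynomial.coeff · 0) h0
        simp [Polynomial.coeff_one] at this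
      · simp only [map_add, map_sub, map_mul, map_pow, map_one, Polynomial.aeval_X, Polynomial.aeval_C]
        simp
        linear_combination hω2
    rw [one_div, div_eq_mul_inv]
    exact ⟨(hn M).inv, ((hωa.pow 2).sub isAlgebraic_one).mul (hn M).inv⟩

/-- One germ for all reached values. -/
theorem reach_germ : ∃ S : ℕ → MvPolynomial ℕ ℂ, (∀ k, S k ≠ 0) ∧
    ∀ c : ℕ → ℂ, (∀ k, MvPolynomial.eval c (S k) ≠ 0) →
      ∀ μ ν : ℝ, Reach μ ν → 1 ≤ μ + ν → ∀ (d : ℕ) (f : MvPolynomial (Fin 3) ℂ),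
        f.IsHomogeneous d → f ≠ 0 → ValLE c (μ + ν) f (d * √(μ + ν)) := by
  classical
  have hcount : {x : ℝ | IsAlgebraic ℚ x}.Countable := Algebraic.countable ℚ ℝ
  have hne : {x : ℝ | IsAlgebraic ℚ x}.Nonempty := ⟨0, isAlgebraic_zero⟩
  obtain ⟨e, he⟩ := hcount.exists_eq_range hne
  have h' : ∀ n : ℕ, ∃ S : ℕ → MvPolynomial ℕ ℂ, (∀ k, S k ≠ 0) ∧
      (NearMinimal 1 (e n) → ∀ c : ℕ → ℂ, (∀ k, MvPolynomial.eval c (S k) ≠ 0) →
        ∀ (d : ℕ) (f : MvPolynomial (Fin 3) ℂ), f.IsHomogeneous d → f ≠ 0 →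
          ValLE c (e n) f (1 * (d * √(e n)))) := by
    intro n
    by_cases hn : NearMinimal 1 (e n)
    · obtain ⟨S, hS, hS'⟩ := hn
      exact ⟨S, hS, fun _ => hS'⟩
    · exact ⟨fun _ => 1, fun _ => one_ne_zero, fun h => absurd h hn⟩
  choose S hS hS' using h'
  obtain ⟨p, hp⟩ := exists_surjective_nat (ℕ × ℕ)
  refine ⟨fun k => S (p k).1 (p k).2, fun k => hS _ _, fun c hc μ ν hr h1 d f hf hf0 => ?_⟩
  have halg : μ + ν ∈ {x : ℝ | IsAlgebraic ℚ x} := hr.algebraic.1.add hr.algebraic.2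
  rw [he] at halg
  obtain ⟨n, hn⟩ := halg
  have hc' : ∀ k : ℕ, MvPolynomial.eval c (S n k) ≠ 0 := by
    intro k
    obtain ⟨j, hj⟩ := hp (n, k)
    have := hc j
    simp only [hj] at this
    exact this
  have h2 := hS' n (by rw [hn]; exact hr.minimal h1) c hc' d f hf hf0
  rw [hn, one_mul] at h2
  exact h2

theorem result :
    (∃ S : ℕ → MvPolynomial ℕ ℂ, (∀ k, S k ≠ 0) ∧
      ∀ c : ℕ → ℂ, (∀ k, MvPolynomial.eval c (S k) ≠ 0) →
        ∀ μ ν : ℝ, Reach μ ν → 1 ≤ μ + ν → ∀ (d : ℕ) (f : MvPolynomial (Fin 3) ℂ),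
          f.IsHomogeneous d → f ≠ 0 → ValLE c (μ + ν) f (d * √(μ + ν))) ∧
    (∀ D : ℕ, 1 ≤ D → ∃ s₀ : ℕ, ∀ s : ℕ, s₀ ≤ s → Reach 0 (D * (s : ℝ) ^ 2)) ∧
    (∀ s : ℕ, 8 ≤ s → Reach 0 (2 * (s : ℝ) ^ 2)) ∧
    (∀ (t : ℝ) (ρ : ℕ), Reach 0 t → 0 < t → t ≤ ρ → Reach 0 ((ρ : ℝ) ^ 2 / t)) ∧
    (∀ (t : ℝ) (k y : ℕ), Reach 0 t → 0 < t → 0 < k → Nat.Coprime k y →
      Reach 0 ((k * t + y) ^ 2 / t)) ∧
    (∀ M : ℕ, 1 ≤ M → Reach 0 M → Reach 0 (((M + 2 + √(M * (M + 4))) / 2) ^ 2 / M)) := by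
  refine ⟨reach_germ, ?_, ?_, ?_, ?_, ?_⟩
  · intro D hD
    obtain ⟨t0, _, h⟩ := Mv_cls (M := 1) le_rfl hD
    refine ⟨t0, fun s hs => ?_⟩
    have h1 := h s hs
    rw [Nat.cast_one, mul_comm] at h1
    exact Reach.start.of_mv h1
  · intro s hs
    exact Reach.start.of_mv (Mv_two hs)
  · intro t ρ h ht hρ
    have hρ0 : 1 ≤ ρ := by
      by_contra h0
      have : ρ = 0 := by omega
      subst this
      rw [Nat.cast_zero] at hρ
      linarith
    exact h.of_mv (Rv.div ht ρ hρ0 hρ)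
  · intro t k y h ht hk hc
    exact h.of_mv (Rv.move ht k y (Nat.isCoprime_iff_coprime.2 hc) hk)
  · intro M hM h
    have hM' : (1 : ℝ) ≤ M := by exact_mod_cast hM
    have hs : √((M : ℝ) * (M + 4)) ^ 2 = M * (M + 4) := Real.sq_sqrt (by positivity)
    have hs1 : 1 ≤ √((M : ℝ) * (M + 4)) := by
      rw [Real.one_le_sqrt]
      nlinarith
    obtain ⟨ω, hω⟩ : ∃ ω : ℝ, ω = (M + 2 + √((M : ℝ) * (M + 4))) / 2 := ⟨_, rfl⟩
    have hω2 : ω ^ 2 + 1 = (M + 2) * ω := by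
      rw [hω]
      linear_combination (1 / 4) * hs
    have hω1 : 2 ≤ ω := by rw [hω]; linarith
    have h1 := h.lim hM hω1 hω2
    have h2 : 0 < 1 / (M : ℝ) + (ω ^ 2 - 1) / M := by
      have : 1 / (M : ℝ) + (ω ^ 2 - 1) / M = ω ^ 2 / M := by ring
      rw [this]
      positivity
    have h3 := h1.of_mv (Mv.toRT h2)
    have : 1 / (M : ℝ) + (ω ^ 2 - 1) / M = ω ^ 2 / M := by ring
    rw [this] at h3
    rw [← hω]
    exact h3

end Pool.Agent.Results.MP_dd8059_ag.ExactSquareClasses
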