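import Pool.Agent.TH183.QT.AllT
import Pool.Agent.TH183.QT.Lower
import Pool.Agent.TH308.QM.Fin

set_option autoImplicit false

/-!
# One very general germ is minimal for all real weights `t ≥ 9` at the same time

In each degree `d` there is one hypersurface in the coefficients of the germ outside which
`v_{ξ, t}(f) ≤ d √t` for all nonzero forms `f` of degree `d` and all real `t ≥ 9`; along every germ and
for every `t ≥ 1` there are forms of value larger than `(√t - ε) d`. So, for every germ `ξ` outside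
countably many hypersurfaces, `μ̂(ξ, t) = √t` for all real `t ≥ 9`.
-/

namespace Pool.Agent.Results.MP_dd8059_ag.OneGermAllWeights

/-- `v_{ξ, t}(f) ≤ B`, where `ξ(x) = x * ∑ c_k x ^ k`: some monomial `x ^ i * Y ^ j` with
`i + t * j ≤ B` occurs in the expansion of `f(x, ξ(x) + Y, 1)`. -/
def ValLE (c : ℕ → ℂ) (t : ℝ) (f : MvPolynomial (Fin 3) ℂ) (B : ℝ) : Prop :=
  ∃ i j : ℕ,
    PowerSeries.coeff i
      ((MvPolynomial.aeval
        (![Polynomial.C PowerSeries.X,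
           Polynomial.C (PowerSeries.X * PowerSeries.mk c) + Polynomial.X,
           1] : Fin 3 → Polynomial (PowerSeries ℂ)) f).coeff j) ≠ 0 ∧
    (i : ℝ) + t * (j : ℝ) ≤ B

theorem result :
    (∀ d : ℕ, ∃ P : MvPolynomial ℕ ℂ, P ≠ 0 ∧ ∀ c : ℕ → ℂ, MvPolynomial.eval c P ≠ 0 →
      ∀ t : ℝ, 9 ≤ t → ∀ f : MvPolynomial (Fin 3) ℂ, f.IsHomogeneous d → f ≠ 0 →
        ValLE c t f (d * Real.sqrt t)) ∧
    (∀ (c : ℕ → ℂ) (t : ℝ), 1 ≤ t → ∀ ε : ℝ, 0 < ε → ∃ D : ℕ, ∀ d : ℕ, D ≤ d →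
      ∃ f : MvPolynomial (Fin 3) ℂ, f.IsHomogeneous d ∧ f ≠ 0 ∧
        ¬ ValLE c t f ((Real.sqrt t - ε) * d)) :=
  ⟨fun d => Pool.Agent.TH183.QT.one_hypersurface
    (fun _ ht => Pool.Agent.TH308.QM.nearMinimal_nine ht) d,
   fun c _ ht _ hε => Pool.Agent.TH183.QT.lower_bound c ht hε⟩

end Pool.Agent.Results.MP_dd8059_ag.OneGermAllWeights
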