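import Pool.Agent.TH183.QT.Uniform

set_option autoImplicit false

/-!
# A uniform bound for all real weights at least nine, and new minimal valuations

One very general germ `ξ` satisfies `v_{ξ, t}(f) ≤ 1.0067 √t deg f` for all nonzero forms `f` and
all real `t ≥ 9`, and `v_{ξ, t}(f) ≤ √t deg f` for all `t = α ^ 2` with `α` in the set `Root`, the
least set that contains `1` and `13 / 5` and, with `α`, all the quotients `ρ / α` of integers
`ρ ≥ α ^ 2`. New are the orbit of `13 / 5`, for instance `t = (40 / 13) ^ 2` and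
`t = (315 / 104) ^ 2` between `9` and `10`, and the constant.

The proof: if the forms of degree at most `D` satisfy `v ≤ κ √t d`, and the number of monomials
`x ^ i Y ^ j` with `i + t j < √t D / κ` is less than the number of monomials of degree `D`, then all
forms satisfy `v ≤ κ √t d`, by an inequality of Bezout type for `v` on coprime forms, proved by
counting conditions. This is applied 22 times, starting with the five exact values
`3, 315 / 104, 40 / 13, 63 / 20, 200 / 63` of `√t`, which gives the bound for `9 ≤ t ≤ 10`; the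
transfer `M_d(ρ ^ 2 / σ) ≤ (ρ / σ) M_d(σ)` carries it to all `t ≥ 9`. The value `13 / 5` itself comes
from the same criterion and a rank computation modulo a prime in degree five.
-/

namespace Pool.Agent.Results.MP_dd8059_ag.UniformBound

open Pool.Agent.TH183.QT

/-- The numbers `1` and `13 / 5` and, with `α`, all the quotients `ρ / α` of integers
`ρ ≥ α ^ 2`. -/
inductive Root : ℝ → Prop
  | one : Root 1
  | base : Root (13 / 5)
  | step (α : ℝ) (ρ : ℕ) : Root α → α ^ 2 ≤ ρ → Root (ρ / α)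

theorem Root.spec {α : ℝ} (h : Root α) : 0 < α ∧ (∃ q : ℚ, (q : ℝ) = α) ∧ NearMinimal 1 (α ^ 2) := by
  induction h with
  | one =>
    refine ⟨one_pos, ⟨1, by norm_num⟩, ?_⟩
    rw [one_pow]
    exact nm_one
  | base =>
    refine ⟨by norm_num, ⟨13 / 5, by norm_num⟩, ?_⟩
    have e : (13 / 5 : ℝ) ^ 2 = 169 / 25 := by norm_num
    rw [e]
    exact nm_13_5
  | step α ρ _ hρ ih =>
    obtain ⟨h0, ⟨q, hq⟩, hm⟩ := ih
    have hρ0 : (0 : ℝ) < ρ := lt_of_lt_of_le (by positivity) hρ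
    refine ⟨by positivity, ⟨ρ / q, by rw [← hq]; push_cast; rfl⟩, ?_⟩
    rw [div_pow]
    exact nearMinimal_transfer (by positivity) hρ hm

/-- One germ for all elements of `Root`. -/
theorem root_germ : ∃ S : ℕ → MvPolynomial ℕ ℂ, (∀ k, S k ≠ 0) ∧
    ∀ c : ℕ → ℂ, (∀ k, MvPolynomial.eval c (S k) ≠ 0) →
      ∀ α : ℝ, Root α → ∀ (d : ℕ) (f : MvPolynomial (Fin 3) ℂ), f.IsHomogeneous d → f ≠ 0 →
        ValLE c (α ^ 2) f (d * α) := by
  classical
  have h' : ∀ q : ℚ, ∃ S : ℕ → MvPolynomial ℕ ℂ, (∀ k, S k ≠ 0) ∧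
      (Root (q : ℝ) → ∀ c : ℕ → ℂ, (∀ k, MvPolynomial.eval c (S k) ≠ 0) →
        ∀ (d : ℕ) (f : MvPolynomial (Fin 3) ℂ), f.IsHomogeneous d → f ≠ 0 →
          ValLE c ((q : ℝ) ^ 2) f (d * q)) := by
    intro q
    by_cases hq : Root (q : ℝ)
    · obtain ⟨h0, _, S, hS, hS'⟩ := hq.spec
      refine ⟨S, hS, fun _ c hc d f hf hf0 => ?_⟩
      refine (hS' c hc d f hf hf0).mono (le_of_eq ?_)
      rw [Real.sqrt_sq h0.le, one_mul]
    · exact ⟨fun _ => 1, fun _ => one_ne_zero, fun h => absurd h hq⟩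
  choose S hS hS' using h'
  obtain ⟨e, he⟩ := exists_surjective_nat (ℚ × ℕ)
  refine ⟨fun k => S (e k).1 (e k).2, fun k => hS _ _, fun c hc α hα d f hf hf0 => ?_⟩
  obtain ⟨_, ⟨q, hq⟩, _⟩ := hα.spec
  have hc' : ∀ k : ℕ, MvPolynomial.eval c (S q k) ≠ 0 := by
    intro k
    obtain ⟨n, hn⟩ := he (q, k)
    have := hc n
    simp only [hn] at this
    exact this
  rw [← hq] at hα ⊢
  exact hS' q hα c hc' d f hf hf0

theorem result : (Root (40 / 13) ∧ Root (315 / 104)) ∧
    ∃ S : ℕ → MvPolynomial ℕ ℂ, (∀ k, S k ≠ 0) ∧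
      ∀ c : ℕ → ℂ, (∀ k, MvPolynomial.eval c (S k) ≠ 0) →
        ∀ (d : ℕ) (f : MvPolynomial (Fin 3) ℂ), f.IsHomogeneous d → f ≠ 0 →
          (∀ t : ℝ, 9 ≤ t → ValLE c t f (1.0067 * (d * Real.sqrt t))) ∧
          ∀ α : ℝ, Root α → ValLE c (α ^ 2) f (d * α) := by
  refine ⟨⟨?_, ?_⟩, ?_⟩
  · have h := Root.step (13 / 5) 8 Root.base (by norm_num)
    have e : ((8 : ℕ) : ℝ) / (13 / 5) = 40 / 13 := by norm_num
    rwa [e] at h
  · have h1 := Root.step (13 / 5) 7 Root.base (by norm_num)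
    have h2 := Root.step _ 8 h1 (by norm_num)
    have h3 := Root.step _ 9 h2 (by norm_num)
    have e : ((9 : ℕ) : ℝ) / (((8 : ℕ) : ℝ) / (((7 : ℕ) : ℝ) / (13 / 5))) = 315 / 104 := by norm_num
    rwa [e] at h3
  · obtain ⟨S, hS, hS'⟩ := root_germ
    obtain ⟨T, hT, hT'⟩ := one_germ (κ := 10067 / 10000) (a := 9) (by norm_num)
      fun t ht => uniform t ht.le
    refine ⟨fun k => S k * T k, fun k => mul_ne_zero (hS k) (hT k), fun c hc d f hf hf0 => ?_⟩
    have hc1 : ∀ k, MvPolynomial.eval c (S k) ≠ 0 := fun k h0 => hc k (by rw [map_mul, h0, zero_mul])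
    have hc2 : ∀ k, MvPolynomial.eval c (T k) ≠ 0 := fun k h0 => hc k (by rw [map_mul, h0, mul_zero])
    refine ⟨fun t ht => ?_, fun α hα => hS' c hc1 α hα d f hf hf0⟩
    refine (hT' c hc2 t ht (by linarith) d f hf hf0).mono (le_of_eq ?_)
    norm_num

end Pool.Agent.Results.MP_dd8059_ag.UniformBound
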